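import Mathlib

set_option autoImplicit false

/-! Quartic forms in the jets `W (d,k)` of the Poisson extension: combinatorial definitions.

`W (d,k)` has the symbol `(-r)^d u^k e^{-y r}`, `r = |ξ|`, `u = -i (conj ξ)/|ξ|`; so
`d/dy W (d,k) = W (d+1,k)`, `2 d/dz W (d,k) = W (d+1,k+1)`, `2 d/dzbar W (d,k) = - W (d+1,k-1)`
(in suitably scaled variables), and `T^n` of the function `W (0,k)` is `± W (0,k+2n)`. -/

namespace Pool.Agent.Helper54.PF

/-- jet index -/
abbrev Jx : Type := ℕ × ℤ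

/-- index of a quartic monomial `W_a W_b conj(W_c) conj(W_d)` -/
abbrev Q4 : Type := Jx × Jx × Jx × Jx

/-- `d/dy` of one factor -/
def up (p : Jx) : Jx := (p.1 + 1, p.2)

/-- `2 d/dz` of a plain factor -/
def ur (p : Jx) : Jx := (p.1 + 1, p.2 + 1)

/-- minus `2 d/dz` of a conjugated factor -/
def ul (p : Jx) : Jx := (p.1 + 1, p.2 - 1)

/-- total number of derivatives -/
def ord (q : Q4) : ℕ := q.1.1 + q.2.1.1 + q.2.2.1.1 + q.2.2.2.1

/-- a form with coefficients in `R` -/
abbrev Fm (R : Type) : Type := List (R × Q4)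

section

variable {R : Type} [Ring R]

/-- the monomials of `d/dy` (monomial) -/
def yy (q : Q4) : List Q4 :=
  [(up q.1, q.2.1, q.2.2.1, q.2.2.2), (q.1, up q.2.1, q.2.2.1, q.2.2.2),
   (q.1, q.2.1, up q.2.2.1, q.2.2.2), (q.1, q.2.1, q.2.2.1, up q.2.2.2)]

/-- the monomials of `2 d/dz` (monomial), with signs -/
def dz (c : R) (q : Q4) : Fm R :=
  [(c, (ur q.1, q.2.1, q.2.2.1, q.2.2.2)), (c, (q.1, ur q.2.1, q.2.2.1, q.2.2.2)),
   (-c, (q.1, q.2.1, ul q.2.2.1, q.2.2.2)), (-c, (q.1, q.2.1, q.2.2.1, ul q.2.2.2))]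

/-- multiply by a constant -/
def sc (a : R) (L : Fm R) : Fm R := L.map fun c => (a * c.1, c.2)

/-- `d/dy` of a form -/
def apY (L : Fm R) : Fm R := L.flatMap fun c => (yy c.2).map fun r => (c.1, r)

/-- `2 d/dz` of a form -/
def apZ (L : Fm R) : Fm R := L.flatMap fun c => dz c.1 c.2

/-- the `k`-th part of the dissipation, weight `y^k` -/
def part (U M : List (Fm R)) (k : ℕ) : Fm R :=
  sc (-1) (apY (U.getD k [])) ++ sc (-((k : R) + 1)) (U.getD (k + 1) []) ++ apZ (M.getD k [])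

/-- the whole dissipation -/
def body (U M : List (Fm R)) (K : ℕ) : Fm R := (List.range (K + 1)).flatMap (part U M)

end

/-- value of a monomial at a jet -/
noncomputable def mono (q : Q4) (X : Jx → ℂ) : ℂ :=
  X q.1 * X q.2.1 * starRingEnd ℂ (X q.2.2.1) * starRingEnd ℂ (X q.2.2.2)

/-- value of a form at a jet -/
noncomputable def ev (L : Fm ℝ) (X : Jx → ℂ) : ℝ := (L.map fun c => c.1 * (mono c.2 X).re).sum

/-- an integer form as a real form -/
def rl (L : Fm ℤ) : Fm ℝ := L.map fun c => ((c.1 : ℝ), c.2)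

/-- the order conditions: `U_k` and `M_k` have `k` derivatives -/
def ordOK {R : Type} (U M : List (Fm R)) (K : ℕ) : Bool :=
  (U.length ≤ K + 1) &&
  ((List.range (K + 1)).all fun k =>
    (U.getD k []).all (fun c => ord c.2 == k) && (M.getD k []).all (fun c => ord c.2 == k))

end Pool.Agent.Helper54.PF
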