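import Pool.Agent.Helper54.JET.Final
import Pool.Agent.Helper54.PF.Form

set_option autoImplicit false

/-! Cut-off multipliers, the Poisson extension and quartic integrals on the Fourier side. -/

noncomputable section

namespace Pool.Agent.Helper54.PF

open MeasureTheory Set Filter Topology Complex FourierTransform SchwartzMap
open Pool.Agent.Helper68.BA
open Pool.Agent.Helper54.JET (C3 x4 Om fourier_MM quartic cont_fourier fourier_bdd integrable_cont_mul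
  MM_one)
open scoped ContDiff SchwartzMap LineDeriv ENNReal

/-- smooth off the origin -/
def SO (g : ℂ → ℂ) : Prop := ∀ ξ : ℂ, ξ ≠ 0 → ContDiffAt ℝ ∞ g ξ

lemma SO.mul {g h : ℂ → ℂ} (hg : SO g) (hh : SO h) : SO (fun ξ => g ξ * h ξ) :=
  fun ξ hξ => (hg ξ hξ).mul (hh ξ hξ)

lemma SO.const (c : ℂ) : SO (fun _ => c) := fun _ _ => contDiffAt_const

/-- a cut-off: smooth, compactly supported off the origin -/
structure Cut (χ : ℂ → ℂ) : Prop where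
  smooth : ContDiff ℝ ∞ χ
  cpt : HasCompactSupport χ
  zero : (0 : ℂ) ∉ tsupport χ

lemma Cut.mul {χ g : ℂ → ℂ} (h : Cut χ) (hg : SO g) : Cut (fun ξ => χ ξ * g ξ) := by
  have hsub : tsupport (fun ξ => χ ξ * g ξ) ⊆ tsupport χ := tsupport_mul_subset_left
  refine ⟨contDiff_iff_contDiffAt.2 fun ξ => ?_, h.cpt.mul_right, fun h0 => h.zero (hsub h0)⟩
  rcases eq_or_ne ξ 0 with rfl | hξ
  · have h1 : (tsupport χ)ᶜ ∈ 𝓝 (0 : ℂ) := (isClosed_tsupport χ).isOpen_compl.mem_nhds h.zero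
    have h2 : (fun ξ => χ ξ * g ξ) =ᶠ[𝓝 (0 : ℂ)] fun _ => 0 := by
      filter_upwards [h1] with ξ hξ
      rw [image_eq_zero_of_notMem_tsupport hξ, zero_mul]
    exact contDiffAt_const.congr_of_eventuallyEq h2
  · exact h.smooth.contDiffAt.mul (hg ξ hξ)

lemma Cut.tg {χ : ℂ → ℂ} (h : Cut χ) : χ.HasTemperateGrowth := h.cpt.hasTemperateGrowth h.smooth

lemma Cut.gap {χ : ℂ → ℂ} (h : Cut χ) : ∃ δ : ℝ, 0 < δ ∧ ∀ ξ, χ ξ ≠ 0 → δ ≤ ‖ξ‖ := by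
  have h1 : (tsupport χ)ᶜ ∈ 𝓝 (0 : ℂ) := (isClosed_tsupport χ).isOpen_compl.mem_nhds h.zero
  obtain ⟨δ, hδ, hb⟩ := Metric.mem_nhds_iff.1 h1
  refine ⟨δ, hδ, fun ξ hξ => ?_⟩
  by_contra hlt
  push Not at hlt
  have : ξ ∈ (tsupport χ)ᶜ := hb (by simpa using hlt)
  exact this (subset_tsupport χ hξ)

/-- `f` filtered by the symbol `χ g` -/
def Sf (χ g : ℂ → ℂ) (f : 𝓢(ℂ, ℂ)) : 𝓢(ℂ, ℂ) := MM (fun ξ => χ ξ * g ξ) f

lemma fourier_Sf {χ g : ℂ → ℂ} (h : Cut χ) (hg : SO g) (f : 𝓢(ℂ, ℂ)) (ξ : ℂ) :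
    𝓕 (Sf χ g f : ℂ → ℂ) ξ = g ξ * (χ ξ * 𝓕 (f : ℂ → ℂ) ξ) := by
  have h1 := congrFun (fourier_MM (h.mul hg).tg f) ξ
  rw [Sf, h1]
  ring

lemma fourier_cut {χ : ℂ → ℂ} (h : Cut χ) (f : 𝓢(ℂ, ℂ)) (ξ : ℂ) :
    𝓕 (MM χ f : ℂ → ℂ) ξ = χ ξ * 𝓕 (f : ℂ → ℂ) ξ := congrFun (fourier_MM h.tg f) ξ

/-- the product of the Fourier transforms -/
def OO (χ : ℂ → ℂ) (f : 𝓢(ℂ, ℂ)) (ξ : C3) : ℂ := Om (MM χ f) ξ

lemma OO_eq {χ : ℂ → ℂ} (h : Cut χ) (f : 𝓢(ℂ, ℂ)) (ξ : C3) : OO χ f ξ =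
    (χ ξ.1 * 𝓕 (f : ℂ → ℂ) ξ.1) * (χ ξ.2.1 * 𝓕 (f : ℂ → ℂ) ξ.2.1) *
      starRingEnd ℂ (χ ξ.2.2 * 𝓕 (f : ℂ → ℂ) ξ.2.2) *
      starRingEnd ℂ (χ (x4 ξ) * 𝓕 (f : ℂ → ℂ) (x4 ξ)) := by
  rw [OO, Om, fourier_cut h, fourier_cut h, fourier_cut h, fourier_cut h]

/-- physical side = Fourier side, general symbols -/
lemma phys {χ : ℂ → ℂ} (h : Cut χ) (f : 𝓢(ℂ, ℂ)) {a b c d : ℂ → ℂ} (ha : SO a) (hb : SO b)
    (hc : SO c) (hd : SO d) :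
    ∫ z, Sf χ a f z * Sf χ b f z * starRingEnd ℂ (Sf χ c f z) * starRingEnd ℂ (Sf χ d f z) =
      ∫ ξ : C3, (a ξ.1 * b ξ.2.1 * starRingEnd ℂ (c ξ.2.2) * starRingEnd ℂ (d (x4 ξ))) * OO χ f ξ := by
  rw [quartic]
  congr 1
  funext ξ
  rw [fourier_Sf h ha, fourier_Sf h hb, fourier_Sf h hc]
  have h4 : 𝓕 (Sf χ d f : ℂ → ℂ) (ξ.1 + ξ.2.1 - ξ.2.2) =
      d (x4 ξ) * (χ (x4 ξ) * 𝓕 (f : ℂ → ℂ) (x4 ξ)) := fourier_Sf h hd f (x4 ξ)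
  rw [h4, OO_eq h]
  simp only [map_mul]
  ring

lemma integrable_sym {χ : ℂ → ℂ} (h : Cut χ) (f : 𝓢(ℂ, ℂ)) {a b c d : ℂ → ℂ} (ha : SO a) (hb : SO b)
    (hc : SO c) (hd : SO d) :
    Integrable fun ξ : C3 => (a ξ.1 * b ξ.2.1 * starRingEnd ℂ (c ξ.2.2) * starRingEnd ℂ (d (x4 ξ))) *
      OO χ f ξ := by
  have key := integrable_cont_mul (fourier_integrable (Sf χ a f))
    (fourier_integrable (Sf χ b f)) (fourier_integrable (Sf χ c f))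
    (cont_fourier (Sf χ a f)) (cont_fourier (Sf χ b f)) (cont_fourier (Sf χ c f))
    (cont_fourier (Sf χ d f)) (fourier_bdd (Sf χ d f))
  refine key.congr (ae_of_all _ fun ξ => ?_)
  simp only [fourier_Sf h ha, fourier_Sf h hb, fourier_Sf h hc, fourier_Sf h hd, OO_eq h, map_mul]
  ring

lemma OO_ne {χ : ℂ → ℂ} (h : Cut χ) (f : 𝓢(ℂ, ℂ)) {ξ : C3} (hO : OO χ f ξ ≠ 0) :
    χ ξ.1 ≠ 0 ∧ χ ξ.2.1 ≠ 0 ∧ χ ξ.2.2 ≠ 0 ∧ χ (x4 ξ) ≠ 0 := by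
  rw [OO_eq h] at hO
  refine ⟨?_, ?_, ?_, ?_⟩ <;>
  · intro h0
    apply hO
    rw [h0]
    simp

lemma cut_ne {χ : ℂ → ℂ} (h : Cut χ) {ξ : ℂ} (h0 : χ ξ ≠ 0) : ξ ≠ 0 := by
  rintro rfl
  exact h.zero (subset_tsupport χ h0)

/-- products of Schwartz functions are integrable -/
lemma integrable_four (a b c d : 𝓢(ℂ, ℂ)) :
    Integrable fun z => a z * b z * starRingEnd ℂ (c z) * starRingEnd ℂ (d z) := by
  have hb : ∀ ψ : 𝓢(ℂ, ℂ), ∃ C : ℝ, ∀ z, ‖ψ z‖ ≤ C := by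
    intro ψ
    obtain ⟨C, hC⟩ := ψ.decay 0 0
    exact ⟨C, fun z => by simpa using hC.2 z⟩
  obtain ⟨C2, h2⟩ := hb b
  obtain ⟨C3, h3⟩ := hb c
  obtain ⟨C4, h4⟩ := hb d
  have h1 : Integrable fun z => a z := a.integrable
  refine ((h1.norm.mul_const (C2 * C3 * C4))).mono' ?_ (ae_of_all _ fun z => ?_)
  · apply Continuous.aestronglyMeasurable
    exact ((a.continuous.mul b.continuous).mul (Complex.continuous_conj.comp c.continuous)).mul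
      (Complex.continuous_conj.comp d.continuous)
  · simp only [norm_mul, RCLike.norm_conj]
    have a2 := h2 z
    have a3 := h3 z
    have a4 := h4 z
    have n1 := norm_nonneg (a z)
    have n2 := norm_nonneg (b z)
    have n3 := norm_nonneg (c z)
    have n4 := norm_nonneg (d z)
    have hC2 : 0 ≤ C2 := n2.trans a2
    have hC3 : 0 ≤ C3 := n3.trans a3
    calc ‖a z‖ * ‖b z‖ * ‖c z‖ * ‖d z‖
        = ‖a z‖ * (‖b z‖ * ‖c z‖ * ‖d z‖) := by ring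
      _ ≤ ‖a z‖ * (C2 * C3 * C4) := by
        refine mul_le_mul_of_nonneg_left ?_ n1
        exact mul_le_mul (mul_le_mul a2 a3 n3 hC2) a4 n4 (mul_nonneg hC2 hC3)

/-! ### the symbols of the Poisson jets -/

/-- the unit symbol -/
def un (ξ : ℂ) : ℂ := -I * (starRingEnd ℂ ξ / (‖ξ‖ : ℂ))

/-- the symbol of the jet `W p` at height `0` -/
def sW (p : Jx) (ξ : ℂ) : ℂ := (-(‖ξ‖ : ℂ)) ^ p.1 * un ξ ^ p.2

/-- the symbol of the jet `W p` at height `y` -/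
def sy (y : ℝ) (p : Jx) (ξ : ℂ) : ℂ := sW p ξ * ((Real.exp (-(y * ‖ξ‖)) : ℝ) : ℂ)

lemma norm_un {ξ : ℂ} (h : ξ ≠ 0) : ‖un ξ‖ = 1 := by
  have : ‖ξ‖ ≠ 0 := norm_ne_zero_iff.2 h
  simp [un, this]

lemma un_ne {ξ : ℂ} (h : ξ ≠ 0) : un ξ ≠ 0 := by
  rw [← norm_ne_zero_iff, norm_un h]
  exact one_ne_zero

lemma conj_un {ξ : ℂ} (h : ξ ≠ 0) : starRingEnd ℂ (un ξ) = (un ξ)⁻¹ := by
  rw [Complex.inv_def, Complex.normSq_eq_norm_sq, norm_un h]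
  simp

lemma norm_un_mul (ξ : ℂ) : (‖ξ‖ : ℂ) * un ξ = -I * starRingEnd ℂ ξ := by
  rcases eq_or_ne ξ 0 with rfl | h
  · simp
  · have : (‖ξ‖ : ℂ) ≠ 0 := by exact_mod_cast norm_ne_zero_iff.2 h
    unfold un
    field_simp

lemma SO_norm : SO fun ξ => (‖ξ‖ : ℂ) := by
  intro ξ hξ
  have h1 : ContDiffAt ℝ ∞ (fun ξ : ℂ => ‖ξ‖) ξ := contDiffAt_norm ℝ hξ
  exact Complex.ofRealCLM.contDiff.contDiffAt.comp ξ h1

lemma SO_conj : SO fun ξ => starRingEnd ℂ ξ := by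
  intro ξ _
  exact Complex.conjCLE.contDiff.contDiffAt

lemma SO_un : SO un := by
  intro ξ hξ
  have h1 : (‖ξ‖ : ℂ) ≠ 0 := by exact_mod_cast norm_ne_zero_iff.2 hξ
  exact contDiffAt_const.mul ((SO_conj ξ hξ).mul ((SO_norm ξ hξ).inv h1))

lemma SO.pow {g : ℂ → ℂ} (hg : SO g) (n : ℕ) : SO (fun ξ => g ξ ^ n) :=
  fun ξ hξ => (hg ξ hξ).pow n

lemma SO_un_zpow (k : ℤ) : SO (fun ξ => un ξ ^ k) := by
  intro ξ hξ
  cases k with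
  | ofNat n =>
    simp only [Int.ofNat_eq_natCast, zpow_natCast]
    exact (SO_un ξ hξ).pow n
  | negSucc n =>
    simp only [zpow_negSucc]
    exact ((SO_un ξ hξ).pow (n + 1)).inv (pow_ne_zero _ (un_ne hξ))

lemma SO_sW (p : Jx) : SO (sW p) := by
  have h1 : SO (fun ξ => -(‖ξ‖ : ℂ)) := fun ξ hξ => (SO_norm ξ hξ).neg
  exact (h1.pow p.1).mul (SO_un_zpow p.2)

lemma SO_exp (y : ℝ) : SO (fun ξ => ((Real.exp (-(y * ‖ξ‖)) : ℝ) : ℂ)) := by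
  intro ξ hξ
  have h1 : ContDiffAt ℝ ∞ (fun ξ : ℂ => ‖ξ‖) ξ := contDiffAt_norm ℝ hξ
  have h2 : ContDiffAt ℝ ∞ (fun ξ : ℂ => Real.exp (-(y * ‖ξ‖))) ξ :=
    ((contDiffAt_const.mul h1).neg).exp
  exact Complex.ofRealCLM.contDiff.contDiffAt.comp ξ h2

lemma SO_sy (y : ℝ) (p : Jx) : SO (sy y p) := (SO_sW p).mul (SO_exp y)

/-- the jet `W p` of the Poisson extension at height `y` -/
def WW (χ : ℂ → ℂ) (f : 𝓢(ℂ, ℂ)) (y : ℝ) (p : Jx) : 𝓢(ℂ, ℂ) := Sf χ (sy y p) f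

/-- the symbol of a monomial -/
def Sg (q : Q4) (ξ : C3) : ℂ :=
  sW q.1 ξ.1 * sW q.2.1 ξ.2.1 * starRingEnd ℂ (sW q.2.2.1 ξ.2.2) * starRingEnd ℂ (sW q.2.2.2 (x4 ξ))

/-- the decay rate -/
def sig (ξ : C3) : ℝ := ‖ξ.1‖ + ‖ξ.2.1‖ + ‖ξ.2.2‖ + ‖x4 ξ‖

lemma sig_nonneg (ξ : C3) : 0 ≤ sig ξ := by
  unfold sig
  positivity

lemma continuous_sig : Continuous sig := by
  unfold sig x4
  fun_prop

/-- the quartic integral at height `y`, Fourier side -/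
def JJ (χ : ℂ → ℂ) (f : 𝓢(ℂ, ℂ)) (q : Q4) (y : ℝ) : ℂ :=
  ∫ ξ : C3, Sg q ξ * OO χ f ξ * ((Real.exp (-(y * sig ξ)) : ℝ) : ℂ)

lemma exp_prod (y : ℝ) (ξ : C3) : Real.exp (-(y * ‖ξ.1‖)) * Real.exp (-(y * ‖ξ.2.1‖)) *
    Real.exp (-(y * ‖ξ.2.2‖)) * Real.exp (-(y * ‖x4 ξ‖)) = Real.exp (-(y * sig ξ)) := by
  unfold sig
  rw [← Real.exp_add, ← Real.exp_add, ← Real.exp_add]
  congr 1
  ring

lemma physW {χ : ℂ → ℂ} (h : Cut χ) (f : 𝓢(ℂ, ℂ)) (y : ℝ) (q : Q4) :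
    ∫ z, mono q (fun p => WW χ f y p z) = JJ χ f q y := by
  have e := phys h f (SO_sy y q.1) (SO_sy y q.2.1) (SO_sy y q.2.2.1) (SO_sy y q.2.2.2)
  refine Eq.trans e ?_
  rw [JJ]
  congr 1
  funext ξ
  rw [← exp_prod]
  simp only [Sg, sy, map_mul, Complex.conj_ofReal]
  push_cast
  ring

lemma integrable_monoW (χ : ℂ → ℂ) (f : 𝓢(ℂ, ℂ)) (y : ℝ) (q : Q4) :
    Integrable fun z => mono q (fun p => WW χ f y p z) :=
  integrable_four _ _ _ _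

lemma integrable_Sg {χ : ℂ → ℂ} (h : Cut χ) (f : 𝓢(ℂ, ℂ)) (q : Q4) :
    Integrable fun ξ : C3 => Sg q ξ * OO χ f ξ :=
  integrable_sym h f (SO_sW _) (SO_sW _) (SO_sW _) (SO_sW _)

end Pool.Agent.Helper54.PF
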