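import Pool.Agent.Helper54.PF.Frame

set_option autoImplicit false

/-! Density: from functions with Fourier transform supported off the origin to all Schwartz functions. -/

noncomputable section

namespace Pool.Agent.Helper54.PF

open MeasureTheory Set Filter Topology Complex FourierTransform SchwartzMap
open Pool.Agent.Helper68.BA
open Pool.Agent.Helper54.JET (C3 x4 Om fourier_MM quartic cont_fourier fourier_bdd integrable_cont_mul
  MM_one integrable_quart sum_list_range four_bound)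
open scoped ContDiff SchwartzMap LineDeriv ENNReal

/-! ### size of a filtered function -/

/-- `L^1` size on the Fourier side -/
def n1 (g : ℂ → ℂ) (f : 𝓢(ℂ, ℂ)) : ℝ := ∫ ξ, ‖g ξ * 𝓕 (f : ℂ → ℂ) ξ‖

/-- `L^2` size on the Fourier side -/
def n2 (g : ℂ → ℂ) (f : 𝓢(ℂ, ℂ)) : ℝ := ∫ ξ, ‖g ξ * 𝓕 (f : ℂ → ℂ) ξ‖ ^ 2

lemma MM_sup {g : ℂ → ℂ} (hg : g.HasTemperateGrowth) (f : 𝓢(ℂ, ℂ)) (z : ℂ) : ‖MM g f z‖ ≤ n1 g f := by
  rw [MM_coe hg]
  exact norm_fourierInv_le _ z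

lemma MM_L2 {g : ℂ → ℂ} (hg : g.HasTemperateGrowth) (f : 𝓢(ℂ, ℂ)) :
    ∫ z, ‖MM g f z‖ ^ 2 = n2 g f := by
  rw [← integral_norm_sq_fourier, MM, fourierMultiplierCLM_apply,
    FourierTransform.fourier_fourierInv_eq, n2]
  congr 1
  funext ξ
  rw [smulLeftCLM_apply_apply hg, smul_eq_mul, fourier_coe]

lemma n1_nonneg (g : ℂ → ℂ) (f : 𝓢(ℂ, ℂ)) : 0 ≤ n1 g f := integral_nonneg fun _ => norm_nonneg _

lemma n2_nonneg (g : ℂ → ℂ) (f : 𝓢(ℂ, ℂ)) : 0 ≤ n2 g f := integral_nonneg fun _ => by positivity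

lemma MM_Lp {g : ℂ → ℂ} (hg : g.HasTemperateGrowth) (f : 𝓢(ℂ, ℂ)) (p : ℝ) (hp : 2 ≤ p) :
    eLpNorm (MM g f) (ENNReal.ofReal p) volume ≤
      (ENNReal.ofReal (n1 g f ^ (p - 2) * n2 g f)) ^ (1 / p) := by
  have hp0 : 0 < p := by linarith
  rw [eLpNorm_eq_lintegral_rpow_enorm_toReal (by simpa using hp0) ENNReal.ofReal_ne_top,
    ENNReal.toReal_ofReal hp0.le]
  refine ENNReal.rpow_le_rpow ?_ (by positivity)
  have h1 : ∀ z, ‖MM g f z‖ₑ ^ p ≤ ENNReal.ofReal (n1 g f ^ (p - 2) * ‖MM g f z‖ ^ 2) := by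
    intro z
    rw [← ofReal_norm, ENNReal.ofReal_rpow_of_nonneg (norm_nonneg _) hp0.le]
    apply ENNReal.ofReal_le_ofReal
    rcases eq_or_lt_of_le (norm_nonneg (MM g f z)) with h | h
    · rw [← h, Real.zero_rpow hp0.ne']
      exact mul_nonneg (Real.rpow_nonneg (n1_nonneg g f) _) (by positivity)
    · have h2 : ‖MM g f z‖ ^ p = ‖MM g f z‖ ^ (p - 2) * ‖MM g f z‖ ^ 2 := by
        rw [← Real.rpow_natCast, ← Real.rpow_add h]
        congr 1
        push_cast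
        ring
      rw [h2]
      exact mul_le_mul_of_nonneg_right (Real.rpow_le_rpow h.le (MM_sup hg f z) (by linarith))
        (by positivity)
  refine (lintegral_mono h1).trans (le_of_eq ?_)
  have h3 : Integrable (fun z => ‖MM g f z‖ ^ 2) := by
    have h := (MM g f).memLp 2 (volume : Measure ℂ)
    exact (memLp_two_iff_integrable_sq_norm h.1).1 h
  rw [← ofReal_integral_eq_lintegral_ofReal (h3.const_mul _) (ae_of_all _ fun z =>
      mul_nonneg (Real.rpow_nonneg (n1_nonneg g f) _) (by positivity)),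
    integral_const_mul, MM_L2 hg]

/-- a sequence of symbols bounded by `1` which tends to `0` off the origin gives functions which
tend to `0` in `L^p` -/
lemma MM_Lp_tendsto (g : ℕ → ℂ → ℂ) (hg : ∀ t, (g t).HasTemperateGrowth)
    (hb : ∀ t ξ, ‖g t ξ‖ ≤ 1) (hl : ∀ ξ, ξ ≠ 0 → Tendsto (fun t => g t ξ) atTop (𝓝 0))
    (f : 𝓢(ℂ, ℂ)) (p : ℝ) (hp : 2 ≤ p) :
    Tendsto (fun t => eLpNorm (MM (g t) f) (ENNReal.ofReal p) volume) atTop (𝓝 0) := by
  have hp0 : 0 < p := by linarith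
  have hm : ∀ t, AEStronglyMeasurable (g t) (volume : Measure ℂ) := fun t =>
    (hg t).1.continuous.aestronglyMeasurable
  have t1 : Tendsto (fun t => n1 (g t) f) atTop (𝓝 0) := by
    have h0 : (0 : ℝ) = ∫ _ξ : ℂ, (0 : ℝ) := by simp
    rw [h0]
    refine tendsto_integral_of_dominated_convergence (fun ξ => ‖𝓕 (f : ℂ → ℂ) ξ‖) ?_
      (fourier_integrable f).norm ?_ ?_
    · intro t
      exact ((hm t).mul (fourier_integrable f).aestronglyMeasurable).norm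
    · intro t
      refine ae_of_all _ fun ξ => ?_
      rw [norm_norm, norm_mul]
      exact mul_le_of_le_one_left (norm_nonneg _) (hb t ξ)
    · filter_upwards [ae_ne_zero] with ξ hξ
      have := ((hl ξ hξ).mul_const (𝓕 (f : ℂ → ℂ) ξ)).norm
      simpa using this
  have t2 : Tendsto (fun t => n2 (g t) f) atTop (𝓝 0) := by
    have h0 : (0 : ℝ) = ∫ _ξ : ℂ, (0 : ℝ) := by simp
    rw [h0]
    refine tendsto_integral_of_dominated_convergence (fun ξ => ‖𝓕 (f : ℂ → ℂ) ξ‖ ^ 2) ?_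
      (fourier_sq_integrable f) ?_ ?_
    · intro t
      exact ((hm t).mul (fourier_integrable f).aestronglyMeasurable).norm.pow 2
    · intro t
      refine ae_of_all _ fun ξ => ?_
      rw [Real.norm_of_nonneg (by positivity), norm_mul]
      have := mul_le_of_le_one_left (norm_nonneg (𝓕 (f : ℂ → ℂ) ξ)) (hb t ξ)
      exact pow_le_pow_left₀ (by positivity) this 2
    · filter_upwards [ae_ne_zero] with ξ hξ
      have := (((hl ξ hξ).mul_const (𝓕 (f : ℂ → ℂ) ξ)).norm).pow 2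
      simpa using this
  have h1 : Tendsto (fun t => n1 (g t) f ^ (p - 2) * n2 (g t) f) atTop (𝓝 0) := by
    have h2 : Tendsto (fun t => n1 (g t) f ^ (p - 2)) atTop (𝓝 ((0 : ℝ) ^ (p - 2))) :=
      t1.rpow_const (Or.inr (by linarith))
    have h3 := h2.mul t2
    rwa [mul_zero] at h3
  have h4 : Tendsto (fun t => (ENNReal.ofReal (n1 (g t) f ^ (p - 2) * n2 (g t) f)) ^ (1 / p)) atTop
      (𝓝 ((ENNReal.ofReal 0) ^ (1 / p))) :=
    ((ENNReal.continuous_rpow_const.tendsto _).comp (ENNReal.tendsto_ofReal h1))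
  rw [ENNReal.ofReal_zero, ENNReal.zero_rpow_of_pos (by positivity)] at h4
  exact tendsto_of_tendsto_of_tendsto_of_le_of_le tendsto_const_nhds h4 (fun _ => zero_le)
    (fun t => MM_Lp (hg t) f p hp)

/-! ### the cut-offs -/

/-- big bump -/
def bB (t : ℕ) : ContDiffBump (0 : ℂ) := ⟨(t : ℝ) + 1, (t : ℝ) + 2, by positivity, by linarith⟩

/-- small bump -/
def bS (t : ℕ) : ContDiffBump (0 : ℂ) :=
  ⟨1 / (2 * ((t : ℝ) + 1)), 1 / ((t : ℝ) + 1), by positivity, by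
    apply one_div_lt_one_div_of_lt (by positivity)
    have : (0 : ℝ) < (t : ℝ) + 1 := by positivity
    linarith⟩

/-- the cut-off -/
def ct (t : ℕ) (ξ : ℂ) : ℂ := ((bB t ξ - bS t ξ : ℝ) : ℂ)

lemma cut_ct (t : ℕ) : Cut (ct t) := by
  have hs : ContDiff ℝ ∞ (fun ξ => bB t ξ - bS t ξ) := (bB t).contDiff.sub (bS t).contDiff
  refine ⟨Complex.ofRealCLM.contDiff.comp hs, ?_, ?_⟩
  · have h1 : HasCompactSupport (fun ξ => bB t ξ - bS t ξ) := by
      have h2 := (bB t).hasCompactSupport.add (bS t).hasCompactSupport.neg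
      have h3 : (fun ξ => bB t ξ - bS t ξ) = ((bB t : ℂ → ℝ) + -(bS t : ℂ → ℝ)) := by
        funext ξ
        simp [sub_eq_add_neg]
      rw [h3]
      exact h2
    exact h1.comp_left (g := fun x : ℝ => (x : ℂ)) Complex.ofReal_zero
  · rw [notMem_tsupport_iff_eventuallyEq]
    have hpos : (0 : ℝ) < 1 / (2 * ((t : ℝ) + 1)) := by positivity
    filter_upwards [Metric.closedBall_mem_nhds (0 : ℂ) hpos] with ξ hξ
    have hle : 1 / (2 * ((t : ℝ) + 1)) ≤ (t : ℝ) + 1 := by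
      rw [div_le_iff₀ (by positivity)]
      have : (0 : ℝ) ≤ t := by positivity
      nlinarith
    have hB : ξ ∈ Metric.closedBall (0 : ℂ) (bB t).rIn := Metric.closedBall_subset_closedBall hle hξ
    simp only [ct, Pi.zero_apply, (bB t).one_of_mem_closedBall hB, (bS t).one_of_mem_closedBall hξ,
      sub_self, Complex.ofReal_zero]

lemma ct_mem (t : ℕ) (ξ : ℂ) : ∃ a : ℝ, 0 ≤ a ∧ a ≤ 1 ∧ ct t ξ = (a : ℂ) := by
  refine ⟨bB t ξ - bS t ξ, ?_, ?_, rfl⟩
  · by_cases hB : ξ ∈ Metric.closedBall (0 : ℂ) (bB t).rIn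
    · rw [(bB t).one_of_mem_closedBall hB]
      have := (bS t).le_one (x := ξ)
      linarith
    · have h1 : bS t ξ = 0 := by
        apply (bS t).zero_of_le_dist
        have h2 : (bB t).rIn < dist ξ 0 := by simpa [Metric.mem_closedBall] using hB
        have h3 : (bS t).rOut ≤ (bB t).rIn := by
          show 1 / ((t : ℝ) + 1) ≤ (t : ℝ) + 1
          rw [div_le_iff₀ (by positivity)]
          have : (0 : ℝ) ≤ t := by positivity
          nlinarith
        exact h3.trans h2.le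
      rw [h1, sub_zero]
      exact (bB t).nonneg
  · have h1 := (bB t).le_one (x := ξ)
    have h2 := (bS t).nonneg (x := ξ)
    linarith

lemma ct_le (t : ℕ) (ξ : ℂ) : ‖ct t ξ‖ ≤ 1 := by
  obtain ⟨a, h0, h1, e⟩ := ct_mem t ξ
  rw [e, Complex.norm_real, Real.norm_eq_abs, abs_of_nonneg h0]
  exact h1

lemma ct_sub_le (t : ℕ) (ξ : ℂ) : ‖1 - ct t ξ‖ ≤ 1 := by
  obtain ⟨a, h0, h1, e⟩ := ct_mem t ξ
  rw [e, ← Complex.ofReal_one, ← Complex.ofReal_sub, Complex.norm_real, Real.norm_eq_abs,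
    abs_of_nonneg (by linarith)]
  linarith

lemma ct_eventually {ξ : ℂ} (hξ : ξ ≠ 0) : ∀ᶠ t in atTop, ct t ξ = 1 := by
  have hn : 0 < ‖ξ‖ := norm_pos_iff.2 hξ
  obtain ⟨T1, hT1⟩ := exists_nat_gt ‖ξ‖
  obtain ⟨T2, hT2⟩ := exists_nat_gt (1 / ‖ξ‖)
  filter_upwards [eventually_ge_atTop T1, eventually_ge_atTop T2] with t h1 h2
  have h1' : (T1 : ℝ) ≤ t := by exact_mod_cast h1
  have h2' : (T2 : ℝ) ≤ t := by exact_mod_cast h2
  have hB : ξ ∈ Metric.closedBall (0 : ℂ) (bB t).rIn := by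
    rw [Metric.mem_closedBall, dist_zero_right]
    show ‖ξ‖ ≤ (t : ℝ) + 1
    linarith
  have hS : bS t ξ = 0 := by
    apply (bS t).zero_of_le_dist
    show 1 / ((t : ℝ) + 1) ≤ dist ξ 0
    rw [dist_zero_right, div_le_iff₀ (by positivity)]
    have h3 : 1 / ‖ξ‖ < (t : ℝ) + 1 := by linarith
    rw [div_lt_iff₀ hn] at h3
    linarith
  rw [ct, (bB t).one_of_mem_closedBall hB, hS]
  simp

lemma WW_zero {χ : ℂ → ℂ} (f : 𝓢(ℂ, ℂ)) : WW χ f 0 (0, 0) = MM χ f := by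
  rw [WW, Sf]
  congr 2
  funext ξ
  simp [sy, sW]

lemma un_sq {ξ : ℂ} (hξ : ξ ≠ 0) : un ξ ^ 2 = -(starRingEnd ℂ ξ / ξ) := by
  have h1 : (‖ξ‖ : ℂ) ^ 2 = ξ * starRingEnd ℂ ξ := by
    rw [Complex.mul_conj, Complex.normSq_eq_norm_sq]
    push_cast
    rfl
  have hc : starRingEnd ℂ ξ ≠ 0 := by simpa using hξ
  unfold un
  rw [mul_pow, div_pow, h1, neg_sq, I_sq]
  field_simp

/-- from the functions with Fourier transform supported off the origin to the frozen form -/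
theorem toFrozen (n : ℕ) (p : ℝ) (hp : 2 ≤ p) (C : ℝ)
    (h : ∀ (χ : ℂ → ℂ), Cut χ → ∀ f : 𝓢(ℂ, ℂ),
      eLpNorm (WW χ f 0 (0, 2 * (n : ℤ))) (ENNReal.ofReal p) volume ≤
      ENNReal.ofReal C * eLpNorm (WW χ f 0 (0, 0)) (ENNReal.ofReal p) volume) (f : 𝓢(ℂ, ℂ)) :
    eLpNorm
        (fun z : ℂ => ∫ ξ : ℂ,
          Complex.exp (2 * (Real.pi : ℂ) * Complex.I * ((z.re * ξ.re + z.im * ξ.im : ℝ) : ℂ)) *
            ((starRingEnd ℂ ξ / ξ) ^ n *
              ∫ w : ℂ, Complex.exp (-(2 * (Real.pi : ℂ) * Complex.I *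
                ((w.re * ξ.re + w.im * ξ.im : ℝ) : ℂ))) * f w))
        (ENNReal.ofReal p) MeasureTheory.volume
      ≤ ENNReal.ofReal C *
        MeasureTheory.eLpNorm (fun z : ℂ => f z) (ENNReal.ofReal p) MeasureTheory.volume := by
  rw [frozen_eq n f]
  have h1p : (1 : ℝ≥0∞) ≤ ENNReal.ofReal p := by
    rw [← ENNReal.ofReal_one]
    exact ENNReal.ofReal_le_ofReal (by linarith)
  -- the approximants
  have hW : ∀ t, (WW (ct t) f 0 (0, 2 * (n : ℤ)) : ℂ → ℂ) = fun z => (-1) ^ n *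
      𝓕⁻ (fun ξ => (ct t ξ * (starRingEnd ℂ ξ / ξ) ^ n) * 𝓕 (f : ℂ → ℂ) ξ) z := by
    intro t
    have h1 : (WW (ct t) f 0 (0, 2 * (n : ℤ)) : ℂ → ℂ) =
        𝓕⁻ (fun ξ => (ct t ξ * sy 0 (0, 2 * (n : ℤ)) ξ) * 𝓕 (f : ℂ → ℂ) ξ) :=
      MM_coe ((cut_ct t).mul (SO_sy 0 _)).tg f
    have h2 : (fun ξ => (ct t ξ * sy 0 (0, 2 * (n : ℤ)) ξ) * 𝓕 (f : ℂ → ℂ) ξ) =
        fun ξ => (-1) ^ n * ((ct t ξ * (starRingEnd ℂ ξ / ξ) ^ n) * 𝓕 (f : ℂ → ℂ) ξ) := by
      funext ξ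
      by_cases h0 : ct t ξ = 0
      · simp [h0]
      · have hξ := cut_ne (cut_ct t) h0
        have e : sy 0 (0, 2 * (n : ℤ)) ξ = (-1) ^ n * (starRingEnd ℂ ξ / ξ) ^ n := by
          simp only [sy, sW, pow_zero, one_mul, zero_mul, neg_zero, Real.exp_zero,
            Complex.ofReal_one, mul_one]
          rw [zpow_mul, zpow_natCast, ← mul_pow]
          congr 1
          rw [show ((2 : ℤ)) = ((2 : ℕ) : ℤ) by norm_num, zpow_natCast, un_sq hξ]
          ring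
        rw [e]
        ring
    rw [h1, h2]
    funext z
    exact fourierInv_const_mul' ((-1) ^ n) _ z
  have hlim : ∀ z, Tendsto (fun t => (-1) ^ n * (WW (ct t) f 0 (0, 2 * (n : ℤ)) : 𝓢(ℂ, ℂ)) z) atTop
      (𝓝 (𝓕⁻ (fun ξ => ((starRingEnd ℂ) ξ / ξ) ^ n * 𝓕 (f : ℂ → ℂ) ξ) z)) := by
    intro z
    have e : ∀ t, (-1) ^ n * (WW (ct t) f 0 (0, 2 * (n : ℤ)) : 𝓢(ℂ, ℂ)) z =
        𝓕⁻ (fun ξ => (ct t ξ * (starRingEnd ℂ ξ / ξ) ^ n) * 𝓕 (f : ℂ → ℂ) ξ) z := by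
      intro t
      rw [hW t]
      beta_reduce
      rw [← mul_assoc, ← mul_pow]
      norm_num
    simp only [e]
    refine fourierInv_tendsto f (fun t ξ => ct t ξ * ((starRingEnd ℂ) ξ / ξ) ^ n) _ ?_ ?_ ?_ z
    · intro t
      have h2 : Measurable fun ξ : ℂ => (starRingEnd ℂ) ξ / ξ := by
        have h3 : Measurable fun ξ : ℂ => (starRingEnd ℂ) ξ :=
          Complex.continuous_conj.measurable
        exact h3.div measurable_id
      exact ((cut_ct t).smooth.continuous.measurable.mul (h2.pow_const n)).aestronglyMeasurable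
    · intro t ξ
      rw [norm_mul, norm_pow]
      exact mul_le_one₀ (ct_le t ξ) (by positivity) (pow_le_one₀ (norm_nonneg _) (norm_conj_div ξ))
    · filter_upwards [ae_ne_zero] with ξ hξ
      have : (fun t => ct t ξ * ((starRingEnd ℂ) ξ / ξ) ^ n) =ᶠ[atTop]
          fun _ => ((starRingEnd ℂ) ξ / ξ) ^ n := by
        filter_upwards [ct_eventually hξ] with t ht
        rw [ht, one_mul]
      exact tendsto_const_nhds.congr' this.symm
  have hF := Lp.eLpNorm_lim_le_liminf_eLpNorm (μ := (volume : Measure ℂ))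
    (p := ENNReal.ofReal p) (f := fun t z => (-1) ^ n * (WW (ct t) f 0 (0, 2 * (n : ℤ)) : 𝓢(ℂ, ℂ)) z)
    (fun t => (continuous_const.mul
      (WW (ct t) f 0 (0, 2 * (n : ℤ)) : 𝓢(ℂ, ℂ)).continuous).aestronglyMeasurable)
    _ (ae_of_all _ hlim)
  refine hF.trans ?_
  have hN : ∀ t, eLpNorm (fun z => (-1) ^ n * (WW (ct t) f 0 (0, 2 * (n : ℤ)) : 𝓢(ℂ, ℂ)) z)
      (ENNReal.ofReal p) volume = eLpNorm (WW (ct t) f 0 (0, 2 * (n : ℤ))) (ENNReal.ofReal p) volume := by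
    intro t
    apply eLpNorm_congr_norm_ae
    refine ae_of_all _ fun z => ?_
    rw [norm_mul, norm_pow, norm_neg, norm_one, one_pow, one_mul]
  have hb : ∀ t, eLpNorm (fun z => (-1) ^ n * (WW (ct t) f 0 (0, 2 * (n : ℤ)) : 𝓢(ℂ, ℂ)) z)
      (ENNReal.ofReal p) volume ≤
      ENNReal.ofReal C * (eLpNorm f (ENNReal.ofReal p) volume +
        eLpNorm (MM (fun ξ => 1 - ct t ξ) f) (ENNReal.ofReal p) volume) := by
    intro t
    rw [hN t]
    refine (h (ct t) (cut_ct t) f).trans ?_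
    gcongr
    have hs : (MM (fun ξ => 1 - ct t ξ) f) = f - MM (ct t) f := by
      have e1 : (fun ξ => 1 - ct t ξ) = (fun _ => (1 : ℂ)) - ct t := rfl
      rw [e1, MM_sub (Function.HasTemperateGrowth.const 1) (cut_ct t).tg, MM_one]
    have e : (WW (ct t) f 0 (0, 0) : ℂ → ℂ) = (f : ℂ → ℂ) - (MM (fun ξ => 1 - ct t ξ) f : ℂ → ℂ) := by
      rw [WW_zero, hs]
      funext z
      simp
    rw [e]
    exact eLpNorm_sub_le f.continuous.aestronglyMeasurable
      (MM (fun ξ => 1 - ct t ξ) f).continuous.aestronglyMeasurable h1p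
  have hg : ∀ t, (fun ξ => 1 - ct t ξ).HasTemperateGrowth := fun t =>
    (Function.HasTemperateGrowth.const 1).sub (cut_ct t).tg
  have hlim2 : Tendsto (fun t => ENNReal.ofReal C * (eLpNorm f (ENNReal.ofReal p) volume +
        eLpNorm (MM (fun ξ => 1 - ct t ξ) f) (ENNReal.ofReal p) volume)) atTop
      (𝓝 (ENNReal.ofReal C * (eLpNorm f (ENNReal.ofReal p) volume + 0))) := by
    apply ENNReal.Tendsto.const_mul _ (Or.inr ENNReal.ofReal_ne_top)
    refine tendsto_const_nhds.add (MM_Lp_tendsto (fun t ξ => 1 - ct t ξ) hg ct_sub_le ?_ f p hp)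
    intro ξ hξ
    have : (fun t => 1 - ct t ξ) =ᶠ[atTop] fun _ => 0 := by
      filter_upwards [ct_eventually hξ] with t ht
      rw [ht, sub_self]
    exact tendsto_const_nhds.congr' this.symm
  rw [add_zero] at hlim2
  rw [← hlim2.liminf_eq]
  exact liminf_le_liminf (Eventually.of_forall hb)

/-- FRAME THEOREM, Poisson extension, frozen form, `p = 4` -/
theorem frameT (n K : ℕ) (U M : List (Fm ℝ)) (A B C : ℝ) (ho : ordOK U M K = true)
    (hR : ∀ X : Jx → ℂ, 0 ≤ ev (body U M K) X)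
    (hM : ∀ X : Jx → ℂ, ev (U.getD 0 []) X + B * ‖X (0, 2 * (n : ℤ))‖ ^ 4 ≤ A * ‖X (0, 0)‖ ^ 4)
    (hB : 0 < B) (hC : 0 ≤ C) (hA : A ≤ B * C ^ 4) (f : 𝓢(ℂ, ℂ)) :
    eLpNorm
        (fun z : ℂ => ∫ ξ : ℂ,
          Complex.exp (2 * (Real.pi : ℂ) * Complex.I * ((z.re * ξ.re + z.im * ξ.im : ℝ) : ℂ)) *
            ((starRingEnd ℂ ξ / ξ) ^ n *
              ∫ w : ℂ, Complex.exp (-(2 * (Real.pi : ℂ) * Complex.I *
                ((w.re * ξ.re + w.im * ξ.im : ℝ) : ℂ))) * f w))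
        (ENNReal.ofReal 4) MeasureTheory.volume
      ≤ ENNReal.ofReal C *
        MeasureTheory.eLpNorm (fun z : ℂ => f z) (ENNReal.ofReal 4) MeasureTheory.volume :=
  toFrozen n 4 (by norm_num) C (fun _χ h g => four_bound _ _ A B C hB hC hA
    (frame h g (2 * (n : ℤ)) K U M A B ho hR hM)) f

end Pool.Agent.Helper54.PF
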