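import Pool.Agent.Helper54.PF.Base

set_option autoImplicit false

/-! Dependence of the quartic integrals on the height `y`. -/

noncomputable section

namespace Pool.Agent.Helper54.PF

open MeasureTheory Set Filter Topology Complex FourierTransform SchwartzMap
open Pool.Agent.Helper68.BA
open Pool.Agent.Helper54.JET (C3 x4 Om fourier_MM quartic cont_fourier fourier_bdd integrable_cont_mul
  MM_one)
open scoped ContDiff SchwartzMap LineDeriv ENNReal

variable {χ : ℂ → ℂ} (h : Cut χ) (f : 𝓢(ℂ, ℂ))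

/-- the integrand of `JJ` -/
def GG (χ : ℂ → ℂ) (f : 𝓢(ℂ, ℂ)) (q : Q4) (y : ℝ) (ξ : C3) : ℂ :=
  Sg q ξ * OO χ f ξ * ((Real.exp (-(y * sig ξ)) : ℝ) : ℂ)

lemma JJ_eq (q : Q4) (y : ℝ) : JJ χ f q y = ∫ ξ, GG χ f q y ξ := rfl

lemma continuous_exp_sig (y : ℝ) : Continuous fun ξ : C3 => ((Real.exp (-(y * sig ξ)) : ℝ) : ℂ) :=
  Complex.continuous_ofReal.comp (Real.continuous_exp.comp
    ((continuous_const.mul continuous_sig).neg))

include h

lemma aesm_GG (q : Q4) (y : ℝ) : AEStronglyMeasurable (GG χ f q y) volume :=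
  (integrable_Sg h f q).aestronglyMeasurable.mul (continuous_exp_sig y).aestronglyMeasurable

omit h in
lemma norm_GG_le (q : Q4) {y : ℝ} (hy : 0 ≤ y) (ξ : C3) :
    ‖GG χ f q y ξ‖ ≤ ‖Sg q ξ * OO χ f ξ‖ := by
  unfold GG
  rw [norm_mul, Complex.norm_real, Real.norm_eq_abs, abs_of_pos (Real.exp_pos _)]
  refine mul_le_of_le_one_right (norm_nonneg _) (Real.exp_le_one_iff.2 ?_)
  have := mul_nonneg hy (sig_nonneg ξ)
  linarith

lemma integrable_GG (q : Q4) {y : ℝ} (hy : 0 ≤ y) : Integrable (GG χ f q y) :=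
  (integrable_Sg h f q).norm.mono' (aesm_GG h f q y) (ae_of_all _ fun ξ => norm_GG_le f q hy ξ)

/-- integral of a complex combination of monomials -/
def SL (L : List (ℂ × Q4)) (ξ : C3) : ℂ := (L.map fun c => c.1 * Sg c.2 ξ).sum

lemma sum_JJ {y : ℝ} (hy : 0 ≤ y) (L : List (ℂ × Q4)) :
    Integrable (fun ξ : C3 => SL L ξ * OO χ f ξ * ((Real.exp (-(y * sig ξ)) : ℝ) : ℂ)) ∧
    (L.map fun c => c.1 * JJ χ f c.2 y).sum = ∫ ξ : C3, SL L ξ * OO χ f ξ *
      ((Real.exp (-(y * sig ξ)) : ℝ) : ℂ) := by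
  induction L with
  | nil => simp [SL]
  | cons a L ih =>
    have e : (fun ξ : C3 => SL (a :: L) ξ * OO χ f ξ * ((Real.exp (-(y * sig ξ)) : ℝ) : ℂ)) =
        fun ξ => a.1 * GG χ f a.2 y ξ +
          SL L ξ * OO χ f ξ * ((Real.exp (-(y * sig ξ)) : ℝ) : ℂ) := by
      funext ξ
      simp only [SL, List.map_cons, List.sum_cons, GG]
      ring
    rw [e]
    have h1 := (integrable_GG h f a.2 hy).const_mul a.1
    refine ⟨h1.add ih.1, ?_⟩
    rw [integral_add h1 ih.1, List.map_cons, List.sum_cons, ih.2, JJ_eq, integral_const_mul]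

omit h in
lemma sW_up (p : Jx) (ξ : ℂ) : sW (up p) ξ = -(‖ξ‖ : ℂ) * sW p ξ := by
  simp only [sW, up, pow_succ]
  ring

omit h in
lemma sW_ur (p : Jx) {ξ : ℂ} (hξ : ξ ≠ 0) : sW (ur p) ξ = (I * starRingEnd ℂ ξ) * sW p ξ := by
  have e := norm_un_mul ξ
  simp only [sW, ur, pow_succ, zpow_add₀ (un_ne hξ), zpow_one]
  linear_combination (-((-(‖ξ‖ : ℂ)) ^ p.1 * un ξ ^ p.2)) * e

omit h in
lemma sW_ul (p : Jx) {ξ : ℂ} (hξ : ξ ≠ 0) :
    starRingEnd ℂ (sW (ul p) ξ) = (I * starRingEnd ℂ ξ) * starRingEnd ℂ (sW p ξ) := by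
  have e : sW (ul p) ξ = (-I * ξ) * sW p ξ := by
    have e1 : (‖ξ‖ : ℂ) * (un ξ)⁻¹ = I * ξ := by
      have hn : (‖ξ‖ : ℂ) ≠ 0 := by exact_mod_cast norm_ne_zero_iff.2 hξ
      rw [← conj_un hξ]
      unfold un
      simp only [map_mul, map_neg, Complex.conj_I, map_div₀, Complex.conj_conj, Complex.conj_ofReal]
      field_simp
    simp only [sW, ul, pow_succ, zpow_sub₀ (un_ne hξ), zpow_one]
    rw [div_eq_mul_inv]
    linear_combination (-((-(‖ξ‖ : ℂ)) ^ p.1 * un ξ ^ p.2)) * e1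
  rw [e, map_mul, map_mul, map_neg, Complex.conj_I, neg_neg]

omit h in
/-- the symbol of `d/dy` -/
lemma sum_yy (q : Q4) (ξ : C3) : ((yy q).map fun r => Sg r ξ).sum = -((sig ξ : ℝ) : ℂ) * Sg q ξ := by
  simp only [yy, List.map_cons, List.map_nil, List.sum_cons, List.sum_nil, Sg, sW_up, map_mul,
    map_neg, Complex.conj_ofReal, sig]
  push_cast
  ring

/-- the symbol of `2 d/dz` -/
lemma sum_dz (c : ℂ) (q : Q4) (ξ : C3) : SL (dz c q) ξ * OO χ f ξ = 0 := by
  by_cases hO : OO χ f ξ = 0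
  · rw [hO, mul_zero]
  obtain ⟨h1, h2, h3, h4⟩ := OO_ne h f hO
  have e : SL (dz c q) ξ = 0 := by
    simp only [SL, dz, List.map_cons, List.map_nil, List.sum_cons, List.sum_nil, Sg,
      sW_ur _ (cut_ne h h1), sW_ur _ (cut_ne h h2), sW_ul _ (cut_ne h h3), sW_ul _ (cut_ne h h4)]
    simp only [x4, map_add, map_sub]
    ring
  rw [e, zero_mul]

lemma dz_JJ {y : ℝ} (hy : 0 ≤ y) (c : ℂ) (q : Q4) :
    ((dz c q).map fun c => c.1 * JJ χ f c.2 y).sum = 0 := by
  rw [(sum_JJ h f hy (dz c q)).2]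
  simp only [sum_dz h f, zero_mul, integral_zero]

lemma sum_yy_JJ {y : ℝ} (hy : 0 ≤ y) (q : Q4) :
    Integrable (fun ξ : C3 => -(((sig ξ : ℝ) : ℂ) * GG χ f q y ξ)) ∧
    ((yy q).map fun r => JJ χ f r y).sum = ∫ ξ : C3, -(((sig ξ : ℝ) : ℂ) * GG χ f q y ξ) := by
  have h0 := sum_JJ h f hy ((yy q).map fun r => ((1 : ℂ), r))
  have e : (fun ξ : C3 => SL ((yy q).map fun r => ((1 : ℂ), r)) ξ * OO χ f ξ *
      ((Real.exp (-(y * sig ξ)) : ℝ) : ℂ)) = fun ξ => -(((sig ξ : ℝ) : ℂ) * GG χ f q y ξ) := by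
    funext ξ
    have e1 : SL ((yy q).map fun r => ((1 : ℂ), r)) ξ = ((yy q).map fun r => Sg r ξ).sum := by
      simp only [SL, List.map_map, Function.comp_def, one_mul]
    rw [e1, sum_yy, GG]
    ring
  rw [e] at h0
  have e2 : (((yy q).map fun r => ((1 : ℂ), r)).map fun c => c.1 * JJ χ f c.2 y) =
      ((yy q).map fun r => JJ χ f r y) := by
    simp only [List.map_map, Function.comp_def, one_mul]
  rw [e2] at h0
  exact h0

lemma hasDerivAt_JJ {y : ℝ} (hy : 0 < y) (q : Q4) :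
    HasDerivAt (JJ χ f q) (((yy q).map fun r => JJ χ f r y).sum) y := by
  have h0 := sum_yy_JJ h f le_rfl q
  have key := hasDerivAt_integral_of_dominated_loc_of_deriv_le (𝕜 := ℝ) (μ := (volume : Measure C3))
    (F := fun s ξ => GG χ f q s ξ) (F' := fun s ξ => -(((sig ξ : ℝ) : ℂ) * GG χ f q s ξ))
    (x₀ := y) (s := Ioi 0) (bound := fun ξ => ‖-(((sig ξ : ℝ) : ℂ) * GG χ f q 0 ξ)‖)
    (Ioi_mem_nhds hy) (Eventually.of_forall fun s => aesm_GG h f q s) (integrable_GG h f q hy.le)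
    (sum_yy_JJ h f hy.le q).1.aestronglyMeasurable
    (ae_of_all _ fun ξ s hs => by
      rw [norm_neg, norm_neg, norm_mul, norm_mul]
      refine mul_le_mul_of_nonneg_left ?_ (norm_nonneg _)
      have := norm_GG_le (χ := χ) f q (le_of_lt hs) ξ
      refine this.trans (le_of_eq ?_)
      simp [GG])
    h0.1.norm
    (ae_of_all _ fun ξ s _ => by
      have h1 : HasDerivAt (fun s : ℝ => ((Real.exp (-(s * sig ξ)) : ℝ) : ℂ))
          (((Real.exp (-(s * sig ξ)) * (-(sig ξ)) : ℝ) : ℂ)) s := by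
        apply HasDerivAt.ofReal_comp
        have h2 : HasDerivAt (fun s : ℝ => -(s * sig ξ)) (-(sig ξ)) s := by
          have := (hasDerivAt_id s).mul_const (-(sig ξ))
          rw [one_mul] at this
          refine this.congr_of_eventuallyEq (Eventually.of_forall fun r => ?_)
          simp only [id]
          ring
        exact h2.exp
      have h3 := h1.const_mul (Sg q ξ * OO χ f ξ)
      refine h3.congr_deriv ?_
      unfold GG
      push_cast
      ring)
  have h4 := key.2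
  rw [← (sum_yy_JJ h f hy.le q).2] at h4
  exact h4

lemma continuousOn_JJ (q : Q4) : ContinuousOn (JJ χ f q) (Ici 0) := by
  intro t ht
  refine continuousWithinAt_of_dominated (μ := (volume : Measure C3)) (F := fun s ξ => GG χ f q s ξ)
    (bound := fun ξ => ‖Sg q ξ * OO χ f ξ‖) (Eventually.of_forall fun s => aesm_GG h f q s)
    ?_ (integrable_Sg h f q).norm (ae_of_all _ fun ξ => ?_)
  · filter_upwards [self_mem_nhdsWithin] with s hs
    exact ae_of_all _ fun ξ => norm_GG_le f q hs ξ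
  · apply Continuous.continuousWithinAt
    unfold GG
    exact continuous_const.mul (Complex.continuous_ofReal.comp (Real.continuous_exp.comp (by fun_prop)))

/-- exponential decay -/
lemma JJ_decay (q : Q4) : ∃ δ : ℝ, 0 < δ ∧ ∃ C : ℝ, ∀ y, 0 ≤ y → ‖JJ χ f q y‖ ≤ C * Real.exp (-(δ * y)) := by
  obtain ⟨δ, hδ, hg⟩ := h.gap
  refine ⟨δ, hδ, ∫ ξ, ‖Sg q ξ * OO χ f ξ‖, fun y hy => ?_⟩
  rw [JJ_eq]
  refine (norm_integral_le_integral_norm _).trans ?_
  rw [← integral_mul_const]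
  refine integral_mono (integrable_GG h f q hy).norm ((integrable_Sg h f q).norm.mul_const _)
    fun ξ => ?_
  by_cases hO : OO χ f ξ = 0
  · simp [GG, hO]
  have h1 := hg _ (OO_ne h f hO).1
  have h2 : δ ≤ sig ξ := by
    unfold sig
    have := norm_nonneg ξ.2.1
    have := norm_nonneg ξ.2.2
    have := norm_nonneg (x4 ξ)
    linarith
  unfold GG
  rw [norm_mul (Sg q ξ * OO χ f ξ), Complex.norm_real, Real.norm_eq_abs, abs_of_pos (Real.exp_pos _)]
  refine mul_le_mul_of_nonneg_left (Real.exp_le_exp.2 ?_) (norm_nonneg _)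
  have := mul_le_mul_of_nonneg_left h2 hy
  linarith

lemma tendsto_JJ (q : Q4) (k : ℕ) :
    Tendsto (fun y : ℝ => (y : ℂ) ^ k * JJ χ f q y) atTop (𝓝 0) := by
  obtain ⟨δ, hδ, C, hC⟩ := JJ_decay h f q
  have h1 : Tendsto (fun y : ℝ => C / δ ^ k * ((δ * y) ^ k * Real.exp (-(δ * y)))) atTop (𝓝 0) := by
    have h2 := ((Real.tendsto_pow_mul_exp_neg_atTop_nhds_zero k).comp
      (tendsto_id.const_mul_atTop hδ)).const_mul (C / δ ^ k)
    simpa using h2
  rw [tendsto_zero_iff_norm_tendsto_zero]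
  refine squeeze_zero' (Eventually.of_forall fun y => norm_nonneg _) ?_ h1
  filter_upwards [eventually_ge_atTop 0] with y hy
  rw [norm_mul, norm_pow, Complex.norm_real, Real.norm_eq_abs, abs_of_nonneg hy]
  calc y ^ k * ‖JJ χ f q y‖ ≤ y ^ k * (C * Real.exp (-(δ * y))) :=
        mul_le_mul_of_nonneg_left (hC y hy) (by positivity)
    _ = C / δ ^ k * ((δ * y) ^ k * Real.exp (-(δ * y))) := by
        rw [mul_pow]
        field_simp

end Pool.Agent.Helper54.PF
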