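import Pool.Agent.Helper54.PF.Evo

set_option autoImplicit false

/-! The frame for the Poisson extension: a certificate gives an L^4 inequality. -/

noncomputable section

namespace Pool.Agent.Helper54.PF

open MeasureTheory Set Filter Topology Complex FourierTransform SchwartzMap
open Pool.Agent.Helper68.BA
open Pool.Agent.Helper54.JET (C3 x4 Om fourier_MM quartic cont_fourier fourier_bdd integrable_cont_mul
  MM_one integrable_quart sum_list_range)
open scoped ContDiff SchwartzMap LineDeriv ENNReal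

/-! ### algebra of forms -/

lemma ev_nil (X : Jx → ℂ) : ev [] X = 0 := rfl

lemma ev_cons (c : ℝ × Q4) (L : Fm ℝ) (X : Jx → ℂ) :
    ev (c :: L) X = c.1 * (mono c.2 X).re + ev L X := by
  simp [ev]

lemma ev_append (L L' : Fm ℝ) (X : Jx → ℂ) : ev (L ++ L') X = ev L X + ev L' X := by
  simp [ev]

lemma ev_flat {β : Type} (g : β → Fm ℝ) (L : List β) (X : Jx → ℂ) :
    ev (L.flatMap g) X = (L.map fun b => ev (g b) X).sum := by
  induction L with
  | nil => simp [ev_nil]
  | cons b L ih => rw [List.flatMap_cons, ev_append, ih, List.map_cons, List.sum_cons]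

/-- all monomials have order `o` -/
def hasOrd (o : ℕ) (L : Fm ℝ) : Prop := ∀ c ∈ L, ord c.2 = o

lemma hasOrd_append {o : ℕ} {L L' : Fm ℝ} (h : hasOrd o L) (h' : hasOrd o L') : hasOrd o (L ++ L') := by
  intro c hc
  rcases List.mem_append.1 hc with hc | hc
  · exact h c hc
  · exact h' c hc

lemma hasOrd_sc {o : ℕ} {L : Fm ℝ} (a : ℝ) (h : hasOrd o L) : hasOrd o (sc a L) := by
  intro c hc
  obtain ⟨d, hd, rfl⟩ := List.mem_map.1 hc
  exact h d hd

lemma hasOrd_apY {o : ℕ} {L : Fm ℝ} (h : hasOrd o L) : hasOrd (o + 1) (apY L) := by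
  intro c hc
  obtain ⟨d, hd, hc⟩ := List.mem_flatMap.1 hc
  obtain ⟨r, hr, rfl⟩ := List.mem_map.1 hc
  have hd' := h d hd
  simp only [yy, List.mem_cons, List.not_mem_nil, or_false] at hr
  rcases hr with rfl | rfl | rfl | rfl <;>
  · simp only [ord, up] at hd' ⊢
    omega

lemma hasOrd_apZ {o : ℕ} {L : Fm ℝ} (h : hasOrd o L) : hasOrd (o + 1) (apZ L) := by
  intro c hc
  obtain ⟨d, hd, hc⟩ := List.mem_flatMap.1 hc
  have hd' := h d hd
  simp only [dz, List.mem_cons, List.not_mem_nil, or_false] at hc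
  rcases hc with rfl | rfl | rfl | rfl <;>
  · simp only [ord, ur, ul] at hd' ⊢
    omega

lemma mono_scale (q : Q4) (s : ℝ) (X : Jx → ℂ) :
    mono q (fun p => (s : ℂ) ^ p.1 * X p) = (s : ℂ) ^ (ord q) * mono q X := by
  simp only [mono, map_mul, map_pow, Complex.conj_ofReal, ord, pow_add]
  ring

lemma ev_scale {o : ℕ} {L : Fm ℝ} (h : hasOrd o L) (s : ℝ) (X : Jx → ℂ) :
    ev L (fun p => (s : ℂ) ^ p.1 * X p) = s ^ o * ev L X := by
  induction L with
  | nil => simp [ev_nil]
  | cons c L ih =>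
    have h1 : ord c.2 = o := h c (List.mem_cons_self)
    rw [ev_cons, ev_cons, ih (fun d hd => h d (List.mem_cons_of_mem _ hd)), mono_scale, h1,
      ← Complex.ofReal_pow, Complex.re_ofReal_mul]
    ring

/-! ### integrated forms -/

/-- integral of a form at height `y` -/
def IL (χ : ℂ → ℂ) (f : 𝓢(ℂ, ℂ)) (L : Fm ℝ) (y : ℝ) : ℝ :=
  (L.map fun c => c.1 * (JJ χ f c.2 y).re).sum

section

variable (χ : ℂ → ℂ) (f : 𝓢(ℂ, ℂ))

lemma IL_nil (y : ℝ) : IL χ f [] y = 0 := rfl

lemma IL_cons (c : ℝ × Q4) (L : Fm ℝ) (y : ℝ) :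
    IL χ f (c :: L) y = c.1 * (JJ χ f c.2 y).re + IL χ f L y := by
  simp [IL]

lemma IL_append (L L' : Fm ℝ) (y : ℝ) : IL χ f (L ++ L') y = IL χ f L y + IL χ f L' y := by
  simp [IL]

lemma IL_sc (a : ℝ) (L : Fm ℝ) (y : ℝ) : IL χ f (sc a L) y = a * IL χ f L y := by
  induction L with
  | nil => simp [sc, IL_nil]
  | cons c L ih =>
    have : sc a (c :: L) = (a * c.1, c.2) :: sc a L := rfl
    rw [this, IL_cons, IL_cons, ih]
    ring

lemma IL_map (a : ℝ) (L : List Q4) (y : ℝ) :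
    IL χ f (L.map fun r => (a, r)) y = a * ((L.map fun r => JJ χ f r y).sum).re := by
  induction L with
  | nil => simp [IL_nil]
  | cons c L ih =>
    rw [List.map_cons, IL_cons, ih, List.map_cons, List.sum_cons, Complex.add_re]
    ring

end

variable {χ : ℂ → ℂ} (h : Cut χ) (f : 𝓢(ℂ, ℂ))

include h

lemma IL_dz {y : ℝ} (hy : 0 ≤ y) (c : ℝ) (q : Q4) : IL χ f (dz c q) y = 0 := by
  have h1 := dz_JJ h f hy (c : ℂ) q
  have h2 := congrArg Complex.re h1
  simp only [dz, List.map_cons, List.map_nil, List.sum_cons, List.sum_nil, Complex.add_re,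
    Complex.zero_re, ← Complex.ofReal_neg, Complex.re_ofReal_mul] at h2
  simp only [IL, dz, List.map_cons, List.map_nil, List.sum_cons, List.sum_nil]
  exact h2

lemma IL_apZ {y : ℝ} (hy : 0 ≤ y) (L : Fm ℝ) : IL χ f (apZ L) y = 0 := by
  induction L with
  | nil => rfl
  | cons c L ih =>
    have : apZ (c :: L) = dz c.1 c.2 ++ apZ L := rfl
    rw [this, IL_append, IL_dz h f hy, ih, add_zero]

lemma hasDerivAt_IL {y : ℝ} (hy : 0 < y) (L : Fm ℝ) :
    HasDerivAt (IL χ f L) (IL χ f (apY L) y) y := by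
  induction L with
  | nil =>
    have : IL χ f [] = fun _ => (0 : ℝ) := rfl
    rw [this]
    simpa [apY, IL_nil] using hasDerivAt_const y (0 : ℝ)
  | cons c L ih =>
    have e1 : IL χ f (c :: L) = fun y => c.1 * (JJ χ f c.2 y).re + IL χ f L y := by
      funext y
      exact IL_cons χ f c L y
    have e2 : apY (c :: L) = ((yy c.2).map fun r => (c.1, r)) ++ apY L := rfl
    rw [e1, e2, IL_append, IL_map]
    have h1 := (Complex.reCLM.hasFDerivAt.comp_hasDerivAt y (hasDerivAt_JJ h f hy c.2)).const_mul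
      c.1
    exact h1.add ih

lemma continuousOn_IL (L : Fm ℝ) : ContinuousOn (IL χ f L) (Ici 0) := by
  induction L with
  | nil => exact continuousOn_const
  | cons c L ih =>
    have e1 : IL χ f (c :: L) = fun y => c.1 * (JJ χ f c.2 y).re + IL χ f L y := by
      funext y
      exact IL_cons χ f c L y
    rw [e1]
    exact (continuousOn_const.mul (Complex.continuous_re.comp_continuousOn
      (continuousOn_JJ h f c.2))).add ih

lemma tendsto_IL (k : ℕ) (L : Fm ℝ) : Tendsto (fun y : ℝ => y ^ k * IL χ f L y) atTop (𝓝 0) := by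
  induction L with
  | nil => simp [IL_nil]
  | cons c L ih =>
    have h1 := tendsto_JJ h f c.2 k
    have h3 := ((Complex.continuous_re.tendsto 0).comp h1).const_mul c.1
    have h4 := h3.add ih
    simp only [Complex.zero_re, mul_zero, add_zero] at h4
    refine h4.congr fun y => ?_
    simp only [Function.comp, IL_cons]
    rw [← Complex.ofReal_pow, Complex.re_ofReal_mul]
    ring

omit h in
/-- the jet of the extension -/
def Xt (χ : ℂ → ℂ) (f : 𝓢(ℂ, ℂ)) (y : ℝ) (z : ℂ) : Jx → ℂ := fun p => WW χ f y p z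

lemma int_ev (y : ℝ) (L : Fm ℝ) :
    Integrable (fun z => ev L (Xt χ f y z)) ∧ ∫ z, ev L (Xt χ f y z) = IL χ f L y := by
  induction L with
  | nil => simp [ev_nil, IL_nil]
  | cons c L ih =>
    simp only [ev_cons]
    have h1 : Integrable fun z => c.1 * (mono c.2 (Xt χ f y z)).re :=
      (integrable_monoW χ f y c.2).re.const_mul _
    refine ⟨h1.add ih.1, ?_⟩
    rw [integral_add h1 ih.1, ih.2, integral_const_mul, IL_cons]
    congr 2
    have h2 := integral_re (integrable_monoW χ f y c.2)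
    rw [← physW h f]
    exact h2

/-! ### the frame theorem -/

section

variable (K : ℕ) (U M : List (Fm ℝ))

omit h in
lemma ordOK_spec (ho : ordOK U M K = true) :
    U.length ≤ K + 1 ∧ (∀ k ≤ K, hasOrd k (U.getD k [])) ∧ (∀ k ≤ K, hasOrd k (M.getD k [])) := by
  simp only [ordOK, Bool.and_eq_true, decide_eq_true_eq, List.all_eq_true, List.mem_range,
    beq_iff_eq] at ho
  exact ⟨ho.1, fun k hk => (ho.2 k (by omega)).1, fun k hk => (ho.2 k (by omega)).2⟩

omit h in
lemma U_last (hU : U.length ≤ K + 1) : U.getD (K + 1) [] = [] := by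
  rw [List.getD_eq_default _ _ hU]

omit h in
lemma part_ord (ho : ordOK U M K = true) (k : ℕ) (hk : k ≤ K) :
    hasOrd (k + 1) (part U M k) := by
  obtain ⟨h1, h2, h3⟩ := ordOK_spec K U M ho
  unfold part
  refine hasOrd_append (hasOrd_append (hasOrd_sc _ (hasOrd_apY (h2 k hk))) (hasOrd_sc _ ?_))
    (hasOrd_apZ (h3 k hk))
  rcases Nat.lt_or_ge k K with hk' | hk'
  · exact h2 (k + 1) hk'
  · have e : k = K := le_antisymm hk hk'
    rw [e, U_last K U h1]
    intro c hc
    exact absurd hc List.not_mem_nil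

omit h in
lemma ev_body (X : Jx → ℂ) : ev (body U M K) X = ∑ k ∈ Finset.range (K + 1), ev (part U M k) X := by
  unfold body
  rw [ev_flat, sum_list_range]

omit h in
/-- pointwise positivity of the weighted dissipation -/
lemma sum_part_nonneg (ho : ordOK U M K = true) (hR : ∀ X : Jx → ℂ, 0 ≤ ev (body U M K) X)
    {y : ℝ} (hy : 0 < y) (X : Jx → ℂ) :
    0 ≤ ∑ k ∈ Finset.range (K + 1), y ^ k * ev (part U M k) X := by
  have h1 := hR (fun p => ((y : ℝ) : ℂ) ^ p.1 * X p)
  rw [ev_body] at h1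
  have e : ∑ k ∈ Finset.range (K + 1), ev (part U M k) (fun p => ((y : ℝ) : ℂ) ^ p.1 * X p) =
      y * ∑ k ∈ Finset.range (K + 1), y ^ k * ev (part U M k) X := by
    rw [Finset.mul_sum]
    refine Finset.sum_congr rfl fun k hk => ?_
    rw [ev_scale (part_ord K U M ho k (Nat.lt_succ_iff.1 (Finset.mem_range.1 hk)))]
    ring
  rw [e] at h1
  exact nonneg_of_mul_nonneg_right h1 hy

omit h in
/-- the functional -/
def Phi (χ : ℂ → ℂ) (f : 𝓢(ℂ, ℂ)) (y : ℝ) : ℝ :=
  ∑ k ∈ Finset.range (K + 1), y ^ k * IL χ f (U.getD k []) y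

omit h in
/-- minus its derivative -/
def Dis (χ : ℂ → ℂ) (f : 𝓢(ℂ, ℂ)) (y : ℝ) : ℝ :=
  ∑ k ∈ Finset.range (K + 1), y ^ k * IL χ f (part U M k) y

lemma Dis_nonneg (ho : ordOK U M K = true) (hR : ∀ X : Jx → ℂ, 0 ≤ ev (body U M K) X)
    {y : ℝ} (hy : 0 < y) : 0 ≤ Dis K U M χ f y := by
  have e : Dis K U M χ f y = ∫ z, ∑ k ∈ Finset.range (K + 1), y ^ k * ev (part U M k) (Xt χ f y z) := by
    rw [integral_finsetSum _ fun k _ => (int_ev h f y _).1.const_mul _]
    refine Finset.sum_congr rfl fun k _ => ?_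
    rw [integral_const_mul, (int_ev h f y _).2]
  rw [e]
  exact integral_nonneg fun z => sum_part_nonneg K U M ho hR hy _

lemma hasDerivAt_Phi (hU : U.length ≤ K + 1) {y : ℝ} (hy : 0 < y) :
    HasDerivAt (Phi K U χ f) (-(Dis K U M χ f y)) y := by
  have h1 : HasDerivAt (Phi K U χ f) (∑ k ∈ Finset.range (K + 1),
      ((k : ℝ) * y ^ (k - 1) * IL χ f (U.getD k []) y +
        y ^ k * (IL χ f (apY (U.getD k [])) y))) y := by
    unfold Phi
    exact HasDerivAt.fun_sum fun k _ => (hasDerivAt_pow k y).mul (hasDerivAt_IL h f hy _)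
  refine h1.congr_deriv ?_
  have e1 : Dis K U M χ f y = ∑ k ∈ Finset.range (K + 1), (-(y ^ k * IL χ f (apY (U.getD k [])) y) -
      ((k : ℝ) + 1) * y ^ k * IL χ f (U.getD (k + 1) []) y) := by
    unfold Dis
    refine Finset.sum_congr rfl fun k _ => ?_
    unfold part
    rw [IL_append, IL_append, IL_sc, IL_sc, IL_apZ h f hy.le]
    ring
  have e2 : ∑ k ∈ Finset.range (K + 1), ((k : ℝ) + 1) * y ^ k * IL χ f (U.getD (k + 1) []) y =
      ∑ k ∈ Finset.range (K + 1), (k : ℝ) * y ^ (k - 1) * IL χ f (U.getD k []) y := by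
    have e3 := Finset.sum_range_succ' (fun k : ℕ => (k : ℝ) * y ^ (k - 1) * IL χ f (U.getD k []) y)
      (K + 1)
    have e4 := Finset.sum_range_succ (fun k : ℕ => (k : ℝ) * y ^ (k - 1) * IL χ f (U.getD k []) y)
      (K + 1)
    rw [e3, U_last K U hU, IL_nil] at e4
    simp only [Nat.cast_zero, zero_mul, add_zero, mul_zero, Nat.add_sub_cancel] at e4
    rw [← e4]
    refine Finset.sum_congr rfl fun k _ => ?_
    push_cast
    ring
  rw [e1, Finset.sum_sub_distrib, e2, ← Finset.sum_sub_distrib, ← Finset.sum_neg_distrib]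
  refine Finset.sum_congr rfl fun k _ => ?_
  ring

lemma Phi_zero_nonneg (ho : ordOK U M K = true)
    (hR : ∀ X : Jx → ℂ, 0 ≤ ev (body U M K) X) : 0 ≤ IL χ f (U.getD 0 []) 0 := by
  obtain ⟨h1, _, _⟩ := ordOK_spec K U M ho
  have hcont : ContinuousOn (Phi K U χ f) (Ici 0) := by
    unfold Phi
    exact continuousOn_finsetSum _ fun k _ => (continuousOn_pow k).mul (continuousOn_IL h f _)
  have hanti : AntitoneOn (Phi K U χ f) (Ici 0) := by
    refine antitoneOn_of_deriv_nonpos (convex_Ici 0) hcont ?_ ?_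
    · intro y hy
      rw [interior_Ici] at hy
      exact (hasDerivAt_Phi h f K U M h1 hy).differentiableAt.differentiableWithinAt
    · intro y hy
      rw [interior_Ici] at hy
      rw [(hasDerivAt_Phi h f K U M h1 hy).deriv]
      have := Dis_nonneg h f K U M ho hR hy
      linarith
  have hlim : Tendsto (Phi K U χ f) atTop (𝓝 0) := by
    have h3 : Tendsto (fun y => ∑ k ∈ Finset.range (K + 1), y ^ k * IL χ f (U.getD k []) y) atTop
        (𝓝 (∑ _k ∈ Finset.range (K + 1), (0 : ℝ))) :=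
      tendsto_finsetSum _ fun k _ => tendsto_IL h f k _
    rw [Finset.sum_const_zero] at h3
    exact h3
  have h0 : Phi K U χ f 0 = IL χ f (U.getD 0 []) 0 := by
    unfold Phi
    rw [Finset.sum_range_succ']
    simp
  rw [← h0]
  refine le_of_tendsto hlim ?_
  filter_upwards [eventually_ge_atTop 0] with y hy
  exact hanti (mem_Ici.2 le_rfl) (mem_Ici.2 hy) hy

end

/-- FRAME THEOREM, Poisson extension: `W (0,j)` is `T^(j/2)` of `f` up to a factor of modulus `1` -/
theorem frame (j : ℤ) (K : ℕ) (U M : List (Fm ℝ)) (A B : ℝ) (ho : ordOK U M K = true)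
    (hR : ∀ X : Jx → ℂ, 0 ≤ ev (body U M K) X)
    (hM : ∀ X : Jx → ℂ, ev (U.getD 0 []) X + B * ‖X (0, j)‖ ^ 4 ≤ A * ‖X (0, 0)‖ ^ 4) :
    B * ∫ z, ‖WW χ f 0 (0, j) z‖ ^ 4 ≤ A * ∫ z, ‖WW χ f 0 (0, 0) z‖ ^ 4 := by
  have h0 := Phi_zero_nonneg h f K U M ho hR
  have h1 := int_ev h f 0 (U.getD 0 [])
  have h2 : ∫ z, (ev (U.getD 0 []) (Xt χ f 0 z) + B * ‖WW χ f 0 (0, j) z‖ ^ 4) ≤
      ∫ z, A * ‖WW χ f 0 (0, 0) z‖ ^ 4 :=
    integral_mono (h1.1.add ((integrable_quart _).const_mul B)) ((integrable_quart _).const_mul A)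
      fun z => hM (Xt χ f 0 z)
  rw [integral_add h1.1 ((integrable_quart _).const_mul B), h1.2, integral_const_mul,
    integral_const_mul] at h2
  linarith

end Pool.Agent.Helper54.PF
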