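import Pool.Agent.Helper54.PF.Den

set_option autoImplicit false

/-! The frame theorem for integer certificates. -/

noncomputable section

namespace Pool.Agent.Helper54.PF

open MeasureTheory SchwartzMap

lemma rl_append (L L' : Fm ℤ) : rl (L ++ L') = rl L ++ rl L' := List.map_append

lemma rl_sc (a : ℤ) (L : Fm ℤ) : rl (sc a L) = sc (a : ℝ) (rl L) := by
  simp only [rl, sc, List.map_map, Function.comp_def, Int.cast_mul]

lemma rl_apY (L : Fm ℤ) : rl (apY L) = apY (rl L) := by
  induction L with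
  | nil => rfl
  | cons c L ih =>
    have e1 : apY (c :: L) = ((yy c.2).map fun r => (c.1, r)) ++ apY L := rfl
    have e2 : apY (rl (c :: L)) = ((yy c.2).map fun r => ((c.1 : ℝ), r)) ++ apY (rl L) := rfl
    rw [e1, e2, rl_append, ih]
    simp only [rl, List.map_map, Function.comp_def]

lemma rl_apZ (L : Fm ℤ) : rl (apZ L) = apZ (rl L) := by
  induction L with
  | nil => rfl
  | cons c L ih =>
    have e1 : apZ (c :: L) = dz c.1 c.2 ++ apZ L := rfl
    have e2 : apZ (rl (c :: L)) = dz (c.1 : ℝ) c.2 ++ apZ (rl L) := rfl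
    rw [e1, e2, rl_append, ih]
    simp only [rl, dz, List.map_cons, List.map_nil, Int.cast_neg]

lemma rl_getD (U : List (Fm ℤ)) (k : ℕ) : rl (U.getD k []) = (U.map rl).getD k [] := by
  simp only [List.getD_eq_getElem?_getD, List.getElem?_map]
  cases U[k]? <;> rfl

lemma rl_flat {β : Type} (g : β → Fm ℤ) (L : List β) : rl (L.flatMap g) = L.flatMap fun b => rl (g b) := by
  induction L with
  | nil => rfl
  | cons b L ih => rw [List.flatMap_cons, rl_append, ih, List.flatMap_cons]

lemma rl_part (U M : List (Fm ℤ)) (k : ℕ) : rl (part U M k) = part (U.map rl) (M.map rl) k := by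
  unfold part
  rw [rl_append, rl_append, rl_sc, rl_sc, rl_apY, rl_apZ, rl_getD, rl_getD, rl_getD]
  push_cast
  rfl

lemma rl_body (U M : List (Fm ℤ)) (K : ℕ) : rl (body U M K) = body (U.map rl) (M.map rl) K := by
  unfold body
  rw [rl_flat]
  simp only [rl_part]

lemma all_rl (L : Fm ℤ) (k : ℕ) : (rl L).all (fun c => ord c.2 == k) = L.all (fun c => ord c.2 == k) := by
  simp only [rl, List.all_map, Function.comp_def]

lemma ordOK_rl (U M : List (Fm ℤ)) (K : ℕ) (h : ordOK U M K = true) :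
    ordOK (U.map rl) (M.map rl) K = true := by
  simp only [ordOK, ← rl_getD, all_rl, List.length_map] at h ⊢
  exact h

/-- FRAME THEOREM, Poisson extension, integer certificates, frozen form, `p = 4` -/
theorem frameZ (n K : ℕ) (U M : List (Fm ℤ)) (A B C : ℝ) (ho : ordOK U M K = true)
    (hR : ∀ X : Jx → ℂ, 0 ≤ ev (rl (body U M K)) X)
    (hM : ∀ X : Jx → ℂ, ev (rl (U.getD 0 [])) X + B * ‖X (0, 2 * (n : ℤ))‖ ^ 4 ≤ A * ‖X (0, 0)‖ ^ 4)
    (hB : 0 < B) (hC : 0 ≤ C) (hA : A ≤ B * C ^ 4) (f : 𝓢(ℂ, ℂ)) :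
    eLpNorm
        (fun z : ℂ => ∫ ξ : ℂ,
          Complex.exp (2 * (Real.pi : ℂ) * Complex.I * ((z.re * ξ.re + z.im * ξ.im : ℝ) : ℂ)) *
            ((starRingEnd ℂ ξ / ξ) ^ n *
              ∫ w : ℂ, Complex.exp (-(2 * (Real.pi : ℂ) * Complex.I *
                ((w.re * ξ.re + w.im * ξ.im : ℝ) : ℂ))) * f w))
        (ENNReal.ofReal 4) MeasureTheory.volume
      ≤ ENNReal.ofReal C *
        MeasureTheory.eLpNorm (fun z : ℂ => f z) (ENNReal.ofReal 4) MeasureTheory.volume :=
  frameT n K (U.map rl) (M.map rl) A B C (ordOK_rl U M K ho)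
    (fun X => by rw [← rl_body]; exact hR X)
    (fun X => by rw [← rl_getD]; exact hM X) hB hC hA f

end Pool.Agent.Helper54.PF
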